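import Pool.Agent.Lib.MP_e63cf8_mp.All
import Pool.Agent.Lib.MP_e63cf8_mp.Asm4

/-!
# MP_e63cf8_mp: root-function bases for periodic Hill operators with trigonometric potentials

`V(x) = v₀ + P(e^{2ix}) + Q(e^{-2ix})`, `P, Q` nonzero polynomials without constant term.  An algebraic criterion decides
whether the root functions of `L_V` can be enumerated to a Schauder basis of `L²(0,π)`, for all such potentials except
those with cancellation between equally large branches on both sides, and a few other degenerate ones.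
-/

open Polynomial Filter Topology MeasureTheory
open scoped ContDiff

namespace Pool.Agent.Results.MP_e63cf8_mp.Classification

/-! ### The operator and the basis property -/

/-- `V(x) = v₀ + P(e^{2ix}) + Q(e^{-2ix})`. -/
noncomputable def pot (v₀ : ℂ) (P Q : ℂ[X]) (x : ℝ) : ℂ :=
  v₀ + P.eval (Complex.exp (2 * x * Complex.I)) + Q.eval (Complex.exp (-(2 * x * Complex.I)))

/-- `(L_V - μ) y = -y'' + V y - μ y`. -/
noncomputable def shiftOp (v₀ : ℂ) (P Q : ℂ[X]) (μ : ℂ) (y : ℝ → ℂ) : ℝ → ℂ :=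
  fun x => -(deriv (deriv y) x) + (pot v₀ P Q x - μ) * y x

/-- The root subspace of `L_V` (periodic boundary conditions) at `μ`: all smooth `π`-periodic `y` with
`(L_V - μ)^N y = 0` for some `N` (it is `{0}` if `μ` is not an eigenvalue). -/
def rootFun (v₀ : ℂ) (P Q : ℂ[X]) (μ : ℂ) : Set (ℝ → ℂ) :=
  {y | ContDiff ℝ ∞ y ∧ Function.Periodic y Real.pi ∧ ∃ N : ℕ, (shiftOp v₀ P Q μ)^[N] y = 0}

/-- `φ` is a Schauder basis of `L²(0,π)`: every `f ∈ L²(0,π)` has a unique expansion `∑ cₙ φₙ`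
converging in norm. -/
def IsSchauder (φ : ℕ → ℝ → ℂ) : Prop :=
  ∀ f : ℝ → ℂ, MemLp f 2 (volume.restrict (Set.Ioc 0 Real.pi)) →
    ∃! c : ℕ → ℂ, Tendsto (fun N : ℕ => eLpNorm (fun x => f x - ∑ n ∈ Finset.range N, c n * φ n x) 2
      (volume.restrict (Set.Ioc 0 Real.pi))) atTop (𝓝 0)

/-- Some system of root functions of `L_V` (the union of bases of all root subspaces, suitably enumerated;
`ev n` is the eigenvalue of `φ n`) is a Schauder basis of `L²(0,π)`. -/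
def HasRootBasis (v₀ : ℂ) (P Q : ℂ[X]) : Prop :=
  ∃ (φ : ℕ → ℝ → ℂ) (ev : ℕ → ℂ),
    (∀ μ : ℂ, LinearIndependent ℂ (fun n : {n : ℕ // ev n = μ} => φ n)) ∧
    (∀ μ : ℂ, (Submodule.span ℂ (φ '' {n | ev n = μ}) : Set (ℝ → ℂ)) = rootFun v₀ P Q μ) ∧
    IsSchauder φ

/-! ### The algebraic data of a polynomial `P = a_M X^M + … + a_1 X`, `M = deg P` -/

/-- all exponents of `P` are multiples of `g` -/
def SuppMul (g : ℕ) (P : ℂ[X]) : Prop := ∀ j, P.coeff j ≠ 0 → g ∣ j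

/-- `γ_r(P) = (1/r) [t^r] A(t)^{r/M}` with `A(t) = ∑_{j=1}^M (a_j/a_M) t^{M-j}` (`= P.reverse / a_M`, `A(0) = 1`) and
`A^s = ∑_i binom(s,i) (A-1)^i`; a polynomial in `a_{M-1}/a_M, …, a_{M-r}/a_M`. -/
noncomputable def gam (P : ℂ[X]) (r : ℕ) : ℂ :=
  (1 / (r : ℂ)) * ∑ i ∈ Finset.range (r + 1),
    (∏ k ∈ Finset.range i, ((r : ℂ) / P.natDegree - k)) / (i.factorial : ℂ) *
      ((C P.leadingCoeff⁻¹ * P.reverse - 1) ^ i).coeff r

/-- The vector `(Re (γ_r c^r))_{1 ≤ r < M/2}`, in lexicographic order. -/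
noncomputable def lexvec (P : ℂ[X]) (c : ℂ) : Lex (Fin ((P.natDegree - 1) / 2) → ℝ) :=
  toLex fun i => (gam P (i + 1) * c ^ ((i : ℕ) + 1)).re

/-- `c` is a top root: an `M`-th root of `a_M` for which this vector is (lexicographically) largest. -/
def IsTop (P : ℂ[X]) (c : ℂ) : Prop :=
  c ^ P.natDegree = P.leadingCoeff ∧ ∀ c' : ℂ, c' ^ P.natDegree = P.leadingCoeff → lexvec P c' ≤ lexvec P c

/-- The criterion: equal degrees `M`, `|a_M| = |b_M|`, and the largest vectors `(Re(γ_r c^r))_{1 ≤ r < M/2}` of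
the two sides agree. -/
def AlgCrit (P Q : ℂ[X]) : Prop :=
  P.natDegree = Q.natDegree ∧ ‖P.leadingCoeff‖ = ‖Q.leadingCoeff‖ ∧
    ∃ c c' : ℂ, IsTop P c ∧ IsTop Q c' ∧
      ∀ r, 1 ≤ r → 2 * r < P.natDegree → (gam P r * c ^ r).re = (gam Q r * c' ^ r).re

/-- All top roots have the same `g`-th power. -/
def UniqueTop (g : ℕ) (P : ℂ[X]) : Prop := ∀ c c₁ : ℂ, IsTop P c → IsTop P c₁ → c ^ g = c₁ ^ g

/-- `P = a₂ X² + a₁ X` with `a₁² ≠ -4 (2l+1)² a₂` for all integers `l`. -/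
def NonExc2 (P : ℂ[X]) : Prop :=
  P.natDegree = 2 ∧ ∀ l : ℤ, P.coeff 1 ^ 2 ≠ -4 * (2 * (l : ℂ) + 1) ^ 2 * P.coeff 2

/-- There are two different top roots `c, c₁`, and, if `M` is even, `Re (γ_{M/2} c^{M/2}) = Re (γ_{M/2} c₁^{M/2})`. -/
def Cancels (P : ℂ[X]) : Prop :=
  ∃ c c₁ : ℂ, IsTop P c ∧ IsTop P c₁ ∧ c ≠ c₁ ∧
    (Even P.natDegree → (gam P (P.natDegree / 2) * c ^ (P.natDegree / 2)).re =
      (gam P (P.natDegree / 2) * c₁ ^ (P.natDegree / 2)).re)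

/-- `P` is admissible for `g`: all top roots have the same `g`-th power, or `P` is quadratic and not exceptional, or
`g = 1`, `M ≥ 3` and the second coefficient `a_{M-1}` is not zero. -/
def Adm (g : ℕ) (P : ℂ[X]) : Prop :=
  UniqueTop g P ∨ NonExc2 P ∨ (g = 1 ∧ 3 ≤ P.natDegree ∧ P.coeff (P.natDegree - 1) ≠ 0)

/-- `P` cancels, and is in neither of the first two classes of `Adm`. -/
def Canc (g : ℕ) (P : ℂ[X]) : Prop := ¬ UniqueTop g P ∧ ¬ NonExc2 P ∧ Cancels P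

/-! ### The result -/

theorem result :
    (∀ (v₀ : ℂ) (P Q : ℂ[X]) (g : ℕ), P.coeff 0 = 0 → Q.coeff 0 = 0 → P ≠ 0 → Q ≠ 0 → 0 < g →
      SuppMul g P → SuppMul g Q → Adm g P → Adm g Q →
      (HasRootBasis v₀ P Q → AlgCrit P Q) ∧
      (¬ (Canc g P ∧ Canc g Q) →
        (HasRootBasis v₀ P Q ↔ AlgCrit P Q ∧ ¬ Canc g P ∧ ¬ Canc g Q))) ∧
    (∀ P : ℂ[X], P.coeff 0 = 0 → 3 ≤ P.natDegree →
      P.coeff (P.natDegree - 1) ^ P.natDegree / P.leadingCoeff ^ (P.natDegree - 1) ∈ Complex.slitPlane →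
      UniqueTop 1 P) :=
  ⟨fun v₀ P Q g hP hQ hP0 hQ0 hg hPg hQg hPf hQf =>
    HillRoots.asm4_class HillRoots.t_T0 HillRoots.t_T7 HillRoots.t_G2 HillRoots.t_G3 HillRoots.t_F11 HillRoots.t_F12
      HillRoots.t_R3 HillRoots.t_N1 HillRoots.t_N3 HillRoots.t_C2 HillRoots.t_C3 HillRoots.t_C4 HillRoots.t_X7
      HillRoots.t_V5 HillRoots.t_V6 HillRoots.t_E3 HillRoots.t_Y5 HillRoots.t_Z1 HillRoots.t_Z2
      v₀ P Q g hP hQ hP0 hQ0 hg hPg hQg hPf hQf, HillRoots.t_Z3⟩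

end Pool.Agent.Results.MP_e63cf8_mp.Classification
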