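import Pool.Agent.Lib.MP_e63cf8_mp.H.AllH

/-!
# MP_e63cf8_mp: root-function bases for periodic Hill operators, all trigonometric polynomials of degree at most three

`V(x) = v₀ + P(e^{2ix}) + Q(e^{-2ix})` with polynomials `P`, `Q` without constant term, of degree at most `3`, that is
`V(x) = ∑_{|k| ≤ 3} v_k e^{2ikx}` arbitrary: the question of the problem file for `m ≤ 3`, without exceptions.
-/

open Polynomial Filter Topology MeasureTheory
open scoped ContDiff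

namespace Pool.Agent.Results.MP_e63cf8_mp.DegreeThree

/-! ### The operator and the basis property -/

/-- `V(x) = v₀ + P(e^{2ix}) + Q(e^{-2ix})`. -/
noncomputable def pot (v₀ : ℂ) (P Q : ℂ[X]) (x : ℝ) : ℂ :=
  v₀ + P.eval (Complex.exp (2 * x * Complex.I)) + Q.eval (Complex.exp (-(2 * x * Complex.I)))

/-- `(L_V - μ) y = -y'' + V y - μ y`. -/
noncomputable def shiftOp (v₀ : ℂ) (P Q : ℂ[X]) (μ : ℂ) (y : ℝ → ℂ) : ℝ → ℂ :=
  fun x => -(deriv (deriv y) x) + (pot v₀ P Q x - μ) * y x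

/-- The root subspace of `L_V` (periodic boundary conditions) at `μ`: all smooth `π`-periodic `y` with
`(L_V - μ)^N y = 0` for some `N` (it is `{0}` if `μ` is not an eigenvalue). -/
def rootFun (v₀ : ℂ) (P Q : ℂ[X]) (μ : ℂ) : Set (ℝ → ℂ) :=
  {y | ContDiff ℝ ∞ y ∧ Function.Periodic y Real.pi ∧ ∃ N : ℕ, (shiftOp v₀ P Q μ)^[N] y = 0}

/-- `φ` is a Schauder basis of `L²(0,π)`: every `f ∈ L²(0,π)` has a unique expansion `∑ cₙ φₙ`
converging in norm. -/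
def IsSchauder (φ : ℕ → ℝ → ℂ) : Prop :=
  ∀ f : ℝ → ℂ, MemLp f 2 (volume.restrict (Set.Ioc 0 Real.pi)) →
    ∃! c : ℕ → ℂ, Tendsto (fun N : ℕ => eLpNorm (fun x => f x - ∑ n ∈ Finset.range N, c n * φ n x) 2
      (volume.restrict (Set.Ioc 0 Real.pi))) atTop (𝓝 0)

/-- Some system of root functions of `L_V` (the union of bases of all root subspaces, suitably enumerated;
`ev n` is the eigenvalue of `φ n`) is a Schauder basis of `L²(0,π)`. -/
def HasRootBasis (v₀ : ℂ) (P Q : ℂ[X]) : Prop :=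
  ∃ (φ : ℕ → ℝ → ℂ) (ev : ℕ → ℂ),
    (∀ μ : ℂ, LinearIndependent ℂ (fun n : {n : ℕ // ev n = μ} => φ n)) ∧
    (∀ μ : ℂ, (Submodule.span ℂ (φ '' {n | ev n = μ}) : Set (ℝ → ℂ)) = rootFun v₀ P Q μ) ∧
    IsSchauder φ

/-! ### The algebraic data, `P = a₃ X³ + a₂ X² + a₁ X`, `Q = b₃ X³ + b₂ X² + b₁ X` -/

/-- `P` is exceptional: of degree two, and `a₁² = -4 (2l+1)² a₂` for an integer `l`. -/
def Exc (P : ℂ[X]) : Prop :=
  P.natDegree = 2 ∧ ∃ l : ℤ, P.coeff 1 ^ 2 = -4 * (2 * (l : ℂ) + 1) ^ 2 * P.coeff 2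

/-- The maximum of `Re (c a_{M-1} / a_M)` over the `M`-th roots `c` of `a_M`, `M = deg P`. -/
noncomputable def muP (P : ℂ[X]) : ℝ :=
  sSup {x : ℝ | ∃ c : ℂ, c ^ P.natDegree = P.leadingCoeff ∧
    x = (c * P.coeff (P.natDegree - 1) / P.leadingCoeff).re}

/-- `a₂³ / a₃²` is a negative real number: the maximum in `muP` is attained at two cube roots of `a₃`. -/
def Neg (P : ℂ[X]) : Prop := ∃ t : ℝ, t < 0 ∧ P.coeff 2 ^ 3 = (t : ℂ) * P.coeff 3 ^ 2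

/-- The invariant `a₁ a₃ / a₂²`. -/
noncomputable def Inv (P : ℂ[X]) : ℂ := P.coeff 1 * P.coeff 3 / P.coeff 2 ^ 2

/-- The condition for two cubic polynomials with `|a₃| = |b₃|`: equal `muP`; if `a₂ = 0` (then `b₂ = 0` as well), `a₁` and
`b₁` are both zero or both nonzero; if `a₂ ≠ 0` (then `b₂ ≠ 0` as well), `Neg` holds for both or for none of them, and if
it holds for both, the invariants are both nonreal, or real and equal. -/
def Cubic (P Q : ℂ[X]) : Prop :=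
  muP P = muP Q ∧ (P.coeff 2 = 0 → (P.coeff 1 = 0 ↔ Q.coeff 1 = 0)) ∧
  (P.coeff 2 ≠ 0 → (Neg P ↔ Neg Q) ∧
    (Neg P → ((Inv P).im ≠ 0 ∧ (Inv Q).im ≠ 0) ∨ ((Inv P).im = 0 ∧ Inv P = Inv Q)))

/-! ### The result -/

theorem result (v₀ : ℂ) (P Q : ℂ[X]) (hP : P.coeff 0 = 0) (hQ : Q.coeff 0 = 0)
    (hdP : P.natDegree ≤ 3) (hdQ : Q.natDegree ≤ 3) :
    HasRootBasis v₀ P Q ↔ P = 0 ∨ Q = 0 ∨ (Exc P ∧ Exc Q) ∨
      (¬ Exc P ∧ ¬ Exc Q ∧ P.natDegree = Q.natDegree ∧ ‖P.leadingCoeff‖ = ‖Q.leadingCoeff‖ ∧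
        (P.natDegree = 3 → Cubic P Q)) :=
  HillRoots.degree_three v₀ P Q hP hQ hdP hdQ

end Pool.Agent.Results.MP_e63cf8_mp.DegreeThree
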